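import Mathlib

/-! At most `8 ^ n` permutations avoid the two vincular patterns 2-41-3 and 3-14-2. -/

namespace Pool.Agent.Work.MP_e02782_co

open Finset

def Bax (l : List ℕ) : Prop :=
  ∀ (u v : List ℕ) (x y : ℕ), l = u ++ x :: y :: v →
    ∀ a ∈ u, ∀ b ∈ v, ¬ (y < a ∧ a < b ∧ b < x) ∧ ¬ (x < b ∧ b < a ∧ a < y)

open Classical in
/-- number of right-to-left maxima -/
noncomputable def rl : List ℕ → ℕ
  | [] => 0
  | x :: l => rl l + if ∀ a ∈ l, a < x then 1 else 0

/-- number of left-to-right maxima -/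
noncomputable def lr (l : List ℕ) : ℕ := rl l.reverse

theorem bax_del {u v : List ℕ} {n : ℕ} (hu : ∀ a ∈ u, a < n) (hv : ∀ a ∈ v, a < n)
    (h : Bax (u ++ n :: v)) : Bax (u ++ v) := by
  intro u' v' x y he a ha b hb
  rw [List.append_eq_append_iff] at he
  rcases he with ⟨w, hw1, hw2⟩ | ⟨w, hw1, hw2⟩
  · -- u' = u ++ w
    exact h (u ++ n :: w) v' x y (by rw [hw2]; simp) a (by
      rw [hw1] at ha; simp only [List.mem_append, List.mem_cons] at ha ⊢; tauto) b hb
  · -- u = u' ++ w, x :: y :: v' = w ++ v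
    rcases w with _ | ⟨x', w⟩
    · simp only [List.nil_append, List.append_nil] at hw1 hw2
      subst hw1
      exact h (u ++ [n]) v' x y (by rw [← hw2]; simp) a (by simp [ha]) b hb
    · simp only [List.cons_append, List.cons.injEq] at hw2
      obtain ⟨rfl, hw2⟩ := hw2
      rcases w with _ | ⟨y', w⟩
      · simp only [List.nil_append] at hw2
        subst hw1
        subst hw2
        constructor
        · rintro ⟨h1, h2, h3⟩
          have hxn : x < n := hu x (by simp)
          exact (h (u' ++ [x]) v' n y (by simp) a (by simp [ha]) b hb).1 ⟨h1, h2, by omega⟩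
        · rintro ⟨h1, h2, h3⟩
          have hyn : y < n := hv y (by simp)
          exact (h u' (y :: v') x n (by simp) a ha b (by simp [hb])).2 ⟨h1, h2, by omega⟩
      · simp only [List.cons_append, List.cons.injEq] at hw2
        obtain ⟨rfl, hw2⟩ := hw2
        subst hw1
        subst hw2
        exact h u' (w ++ n :: v) x y (by simp) a ha b (by
          simp only [List.mem_append, List.mem_cons] at hb ⊢; tauto)

theorem rl_mono (x : ℕ) (l : List ℕ) : rl l ≤ rl (x :: l) := by
  simp [rl]

theorem rl_drop (l : List ℕ) : ∀ t, rl (l.drop t) ≤ rl l := by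
  induction l with
  | nil => intro t; simp
  | cons x l ih =>
    intro t
    cases t with
    | zero => simp
    | succ t =>
      rw [List.drop_succ_cons]
      exact le_trans (ih t) (rl_mono x l)

theorem lr_take (l : List ℕ) (t : ℕ) : lr (l.take t) ≤ lr l := by
  unfold lr
  rw [List.reverse_take]
  exact rl_drop _ _

theorem rl_append_max {u v : List ℕ} {n : ℕ} (hu : ∀ a ∈ u, a < n) (hv : ∀ a ∈ v, a < n) :
    rl (u ++ n :: v) = rl v + 1 := by
  induction u with
  | nil => simp [rl]; exact hv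
  | cons x u ih =>
    have hx : x < n := hu x (by simp)
    have h1 := ih (fun a ha => hu a (by simp [ha]))
    rw [List.cons_append, rl, h1]
    have : ¬ ∀ a ∈ u ++ n :: v, a < x := by
      intro h
      have := h n (by simp)
      omega
    rw [if_neg this]

theorem lr_append_max {u v : List ℕ} {n : ℕ} (hu : ∀ a ∈ u, a < n) (hv : ∀ a ∈ v, a < n) :
    lr (u ++ n :: v) = lr u + 1 := by
  unfold lr
  have : (u ++ n :: v).reverse = v.reverse ++ n :: u.reverse := by simp
  rw [this]
  exact rl_append_max (by simpa using hv) (by simpa using hu)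

/-- the entry just before position `t` exceeds everything from position `t` on -/
def B2 (l : List ℕ) (t : ℕ) : Prop :=
  ∃ (u : List ℕ) (x : ℕ) (v : List ℕ), l = u ++ x :: v ∧ t = u.length + 1 ∧ ∀ a ∈ v, a < x

theorem B2_zero (l : List ℕ) : ¬ B2 l 0 := by
  rintro ⟨u, x, v, _, h, _⟩
  omega

theorem B2_cons (x : ℕ) (l : List ℕ) (t : ℕ) :
    B2 (x :: l) (t + 1) ↔ (t = 0 ∧ ∀ a ∈ l, a < x) ∨ B2 l t := by
  constructor
  · rintro ⟨u, y, v, h1, h2, h3⟩
    rcases u with _ | ⟨x', u⟩
    · simp only [List.nil_append, List.cons.injEq] at h1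
      obtain ⟨rfl, rfl⟩ := h1
      left
      simp at h2
      exact ⟨h2, h3⟩
    · simp only [List.cons_append, List.cons.injEq] at h1
      obtain ⟨rfl, rfl⟩ := h1
      right
      refine ⟨u, y, v, rfl, ?_, h3⟩
      simp at h2
      exact h2
  · rintro (⟨rfl, h⟩ | ⟨u, y, v, rfl, h2, h3⟩)
    · exact ⟨[], x, l, rfl, rfl, h⟩
    · exact ⟨x :: u, y, v, rfl, by simp [h2], h3⟩

open Classical in
noncomputable def T2 (l : List ℕ) : ℕ :=
  ∑ t ∈ range (l.length + 1), if B2 l t then 2 ^ rl (l.drop t) else 0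

theorem T2_eq (l : List ℕ) : T2 l + 1 = 2 ^ rl l := by
  classical
  induction l with
  | nil =>
    simp [T2, rl, B2_zero]
  | cons x l ih =>
    unfold T2
    rw [List.length_cons, Finset.sum_range_succ']
    rw [if_neg (B2_zero _), add_zero]
    have h1 : ∀ t ∈ range (l.length + 1), (if B2 (x :: l) (t + 1) then 2 ^ rl ((x :: l).drop (t + 1)) else 0)
        = (if B2 l t then 2 ^ rl (l.drop t) else 0) + (if t = 0 then (if ∀ a ∈ l, a < x then 2 ^ rl l else 0) else 0) := by
      intro t _
      rw [List.drop_succ_cons]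
      rcases Nat.eq_zero_or_pos t with rfl | ht
      · have := B2_zero l
        simp only [this, B2_cons, true_and, or_false, if_false, zero_add, if_true, List.drop_zero]
      · have ht' : t ≠ 0 := by omega
        simp only [B2_cons, ht', false_and, false_or, if_false, add_zero]
    rw [Finset.sum_congr rfl h1, Finset.sum_add_distrib]
    have h2 : ∑ t ∈ range (l.length + 1), (if t = 0 then (if ∀ a ∈ l, a < x then 2 ^ rl l else 0) else 0)
        = (if ∀ a ∈ l, a < x then 2 ^ rl l else 0) := by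
      rw [Finset.sum_ite_eq' (range (l.length + 1)) 0]
      simp
    rw [h2]
    have ih' : (∑ t ∈ range (l.length + 1), if B2 l t then 2 ^ rl (l.drop t) else 0) = T2 l := rfl
    rw [ih', rl]
    split_ifs with h
    · rw [pow_succ]; omega
    · simpa using ih

open Classical in
noncomputable def T1 (l : List ℕ) : ℕ :=
  ∑ t ∈ range (l.length + 1), if B2 l.reverse (l.length - t) then 2 ^ lr (l.take t) else 0

theorem T1_eq (l : List ℕ) : T1 l + 1 = 2 ^ lr l := by
  classical
  have h := T2_eq l.reverse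
  unfold T2 at h
  unfold lr
  rw [← h]
  congr 1
  unfold T1
  rw [← Finset.sum_range_reflect, List.length_reverse]
  apply Finset.sum_congr rfl
  intro t ht
  rw [Finset.mem_range] at ht
  have e1 : l.length - (l.length + 1 - 1 - t) = t := by omega
  have e2 : lr (l.take (l.length + 1 - 1 - t)) = rl (l.reverse.drop t) := by
    unfold lr
    rw [List.reverse_take]
    congr 2
  rw [e1, e2]

/-- where the new maximum can be inserted -/
theorem valid_split {u v : List ℕ} {n : ℕ} (hu : ∀ a ∈ u, a < n) (hv : ∀ a ∈ v, a < n)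
    (hnd : (u ++ v).Nodup) (h : Bax (u ++ n :: v)) (hne : u ++ v ≠ []) :
    B2 (u ++ v).reverse ((u ++ v).length - u.length) ∨ B2 (u ++ v) u.length := by
  rcases List.eq_nil_or_concat' u with rfl | ⟨u', x, rfl⟩
  · rcases v with _ | ⟨y, v'⟩
    · exact absurd rfl hne
    · left
      exact ⟨v'.reverse, y, [], by simp, by simp, by simp⟩
  · rcases v with _ | ⟨y, v'⟩
    · right
      exact ⟨u', x, [], by simp, by simp, by simp⟩
    · by_contra hcon
      push Not at hcon
      obtain ⟨h1, h2⟩ := hcon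
      have h1' : ∃ a ∈ u' ++ [x], y ≤ a := by
        by_contra hc
        push Not at hc
        apply h1
        refine ⟨v'.reverse, y, (u' ++ [x]).reverse, by simp, by simp; omega, ?_⟩
        intro a ha
        exact hc a (List.mem_reverse.mp ha)
      have h2' : ∃ b ∈ y :: v', x ≤ b := by
        by_contra hc
        push Not at hc
        apply h2
        exact ⟨u', x, y :: v', by simp, by simp, hc⟩
      obtain ⟨a, ha, hya⟩ := h1'
      obtain ⟨b, hb, hxb⟩ := h2'
      rw [List.nodup_append] at hnd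
      obtain ⟨-, -, hdis⟩ := hnd
      have hab : a ≠ b := hdis a ha b hb
      have hya' : y ≠ a := fun e => hdis a ha y (by simp) e.symm
      have hxb' : x ≠ b := fun e => hdis x (by simp) b hb e
      have han : a < n := hu a ha
      have hbn : b < n := hv b hb
      rcases lt_or_gt_of_ne hab with hlt | hgt
      · have hby : b ∈ v' := by
          rcases List.mem_cons.mp hb with rfl | hb'
          · omega
          · exact hb'
        exact (h (u' ++ [x]) v' n y (by simp) a ha b hby).1 ⟨by omega, hlt, hbn⟩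
      · have hax : a ∈ u' := by
          rcases List.mem_append.mp ha with ha' | ha'
          · exact ha'
          · simp at ha'; omega
        exact (h u' (y :: v') x n (by simp) a hax b hb).2 ⟨by omega, hgt, han⟩

open Classical in
noncomputable def G (n : ℕ) : Finset (List ℕ) :=
  ((List.range n).permutations.toFinset).filter Bax

theorem mem_G {n : ℕ} {l : List ℕ} : l ∈ G n ↔ l.Perm (List.range n) ∧ Bax l := by
  simp [G, List.mem_permutations]

noncomputable def wt (l : List ℕ) : ℕ := 2 ^ (lr l + rl l)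

theorem wt_child {u v : List ℕ} {n : ℕ} (hu : ∀ a ∈ u, a < n) (hv : ∀ a ∈ v, a < n) :
    wt (u ++ n :: v) = 4 * (2 ^ lr u * 2 ^ rl v) := by
  unfold wt
  rw [rl_append_max hu hv, lr_append_max hu hv]
  ring

open Classical in
noncomputable def cont (l : List ℕ) (t : ℕ) : ℕ :=
  4 * ((if B2 l.reverse (l.length - t) then 2 ^ lr (l.take t) else 0) * 2 ^ rl l
    + 2 ^ lr l * (if B2 l t then 2 ^ rl (l.drop t) else 0)) + (if l = [] then 4 else 0)

theorem sum_cont (l : List ℕ) : ∑ t ∈ range (l.length + 1), cont l t ≤ 8 * wt l := by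
  classical
  unfold cont
  rw [Finset.sum_add_distrib, ← Finset.mul_sum, Finset.sum_add_distrib, ← Finset.sum_mul, ← Finset.mul_sum]
  have e1 : (∑ t ∈ range (l.length + 1), if B2 l.reverse (l.length - t) then 2 ^ lr (l.take t) else 0)
    = T1 l := rfl
  have e2 : (∑ t ∈ range (l.length + 1), if B2 l t then 2 ^ rl (l.drop t) else 0)
    = T2 l := rfl
  rw [e1, e2]
  have h1 := T1_eq l
  have h2 := T2_eq l
  have e3 : wt l = 2 ^ lr l * 2 ^ rl l := by unfold wt; rw [pow_add]
  rw [e3]
  by_cases hl : l = []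
  · subst hl
    have h1' : T1 [] = 0 := by
      have : lr [] = 0 := by simp [lr, rl]
      rw [this] at h1; simpa using h1
    have h2' : T2 [] = 0 := by
      have : rl [] = 0 := by simp [rl]
      rw [this] at h2; simpa using h2
    rw [h1', h2']
    simp [lr, rl]
  · simp only [hl, if_false, Finset.sum_const_zero, add_zero]
    have h1'' : T1 l ≤ 2 ^ lr l := by omega
    have h2'' : T2 l ≤ 2 ^ rl l := by omega
    calc 4 * (T1 l * 2 ^ rl l + 2 ^ lr l * T2 l)
        ≤ 4 * (2 ^ lr l * 2 ^ rl l + 2 ^ lr l * 2 ^ rl l) := by gcongr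
      _ = 8 * (2 ^ lr l * 2 ^ rl l) := by ring

theorem wt_le_cont {u v : List ℕ} {n : ℕ} (hu : ∀ a ∈ u, a < n) (hv : ∀ a ∈ v, a < n)
    (hnd : (u ++ v).Nodup) (h : Bax (u ++ n :: v)) :
    wt (u ++ n :: v) ≤ cont (u ++ v) u.length := by
  classical
  rw [wt_child hu hv]
  unfold cont
  by_cases hne : u ++ v = []
  · rw [if_pos hne]
    rw [List.append_eq_nil_iff] at hne
    obtain ⟨rfl, rfl⟩ := hne
    simp [lr, rl]
  · rw [if_neg hne, add_zero]
    have hr : rl v ≤ rl (u ++ v) := by
      have := rl_drop (u ++ v) u.length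
      simpa using this
    have hl : lr u ≤ lr (u ++ v) := by
      have := lr_take (u ++ v) u.length
      simpa using this
    have hr' : 2 ^ rl v ≤ 2 ^ rl (u ++ v) := Nat.pow_le_pow_right (by norm_num) hr
    have hl' : 2 ^ lr u ≤ 2 ^ lr (u ++ v) := Nat.pow_le_pow_right (by norm_num) hl
    have et : (u ++ v).take u.length = u := by simp
    have ed : (u ++ v).drop u.length = v := by simp
    rw [et, ed]
    apply Nat.mul_le_mul_left
    rcases valid_split hu hv hnd h hne with h1 | h1
    · rw [if_pos h1]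
      exact le_trans (Nat.mul_le_mul_left _ hr') (Nat.le_add_right _ _)
    · rw [if_pos h1]
      exact le_trans (Nat.mul_le_mul_right _ hl') (Nat.le_add_left _ _)

theorem perm_range_lt {n : ℕ} {l : List ℕ} (h : l.Perm (List.range n)) {a : ℕ} (ha : a ∈ l) : a < n := by
  have := h.mem_iff.mp ha
  simpa using this

theorem child_decomp {n : ℕ} {l : List ℕ} (h : l ∈ G (n + 1)) :
    ∃ u v : List ℕ, l = u ++ n :: v ∧ (u ++ v) ∈ G n ∧ (∀ a ∈ u, a < n) ∧ (∀ a ∈ v, a < n) ∧
      (u ++ v).Nodup ∧ (u ++ v).length = n := by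
  rw [mem_G] at h
  obtain ⟨hp, hb⟩ := h
  have hn : n ∈ l := by
    rw [hp.mem_iff]; simp
  obtain ⟨u, v, rfl⟩ := List.mem_iff_append.mp hn
  have h1 : (n :: (u ++ v)).Perm (n :: List.range n) := by
    refine (List.perm_middle.symm.trans hp).trans ?_
    rw [List.range_succ]
    exact List.perm_append_singleton n (List.range n)
  have h2 : (u ++ v).Perm (List.range n) := List.Perm.cons_inv h1
  have hu : ∀ a ∈ u, a < n := fun a ha => perm_range_lt h2 (List.mem_append_left _ ha)
  have hv : ∀ a ∈ v, a < n := fun a ha => perm_range_lt h2 (List.mem_append_right _ ha)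
  refine ⟨u, v, rfl, mem_G.mpr ⟨h2, bax_del hu hv hb⟩, hu, hv, ?_, ?_⟩
  · exact h2.nodup_iff.mpr List.nodup_range
  · rw [h2.length_eq]; simp

theorem Z_step (n : ℕ) : ∑ l ∈ G (n + 1), wt l ≤ 8 * ∑ l ∈ G n, wt l := by
  classical
  -- choose decompositions
  have hch : ∀ l : List ℕ, ∃ p : List ℕ × ℕ, l ∈ G (n + 1) →
      (p.1 ∈ G n ∧ p.2 < n + 1 ∧ l = p.1.take p.2 ++ n :: p.1.drop p.2 ∧ wt l ≤ cont p.1 p.2) := by
    intro l
    by_cases hl : l ∈ G (n + 1)
    · obtain ⟨u, v, rfl, h1, h2, h3, h4, h5⟩ := child_decomp hl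
      refine ⟨(u ++ v, u.length), fun _ => ⟨h1, ?_, ?_, ?_⟩⟩
      · rw [List.length_append] at h5
        show u.length < n + 1
        omega
      · simp
      · exact wt_le_cont h2 h3 h4 (mem_G.mp hl).2
    · exact ⟨([], 0), fun h => absurd h hl⟩
  choose Φ hΦ using hch
  have hinj : Set.InjOn Φ (G (n + 1) : Set (List ℕ)) := by
    intro l hl l' hl' he
    have a1 := (hΦ l hl).2.2.1
    have a2 := (hΦ l' hl').2.2.1
    rw [a1, a2, he]
  calc ∑ l ∈ G (n + 1), wt l ≤ ∑ l ∈ G (n + 1), cont (Φ l).1 (Φ l).2 :=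
        Finset.sum_le_sum (fun l hl => (hΦ l hl).2.2.2)
    _ = ∑ p ∈ (G (n + 1)).image Φ, cont p.1 p.2 :=
        (Finset.sum_image (f := fun p : List ℕ × ℕ => cont p.1 p.2) hinj).symm
    _ ≤ ∑ p ∈ (G n) ×ˢ range (n + 1), cont p.1 p.2 := by
        apply Finset.sum_le_sum_of_subset
        intro p hp
        rw [Finset.mem_image] at hp
        obtain ⟨l, hl, rfl⟩ := hp
        rw [Finset.mem_product, Finset.mem_range]
        exact ⟨(hΦ l hl).1, (hΦ l hl).2.1⟩
    _ = ∑ l ∈ G n, ∑ t ∈ range (n + 1), cont l t := Finset.sum_product _ _ _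
    _ ≤ ∑ l ∈ G n, 8 * wt l := by
        apply Finset.sum_le_sum
        intro l hl
        have hlen : l.length = n := by
          rw [((mem_G.mp hl).1).length_eq]; simp
        rw [← hlen]
        exact sum_cont l
    _ = 8 * ∑ l ∈ G n, wt l := by rw [Finset.mul_sum]

theorem Z_bound (n : ℕ) : ∑ l ∈ G n, wt l ≤ 8 ^ n := by
  induction n with
  | zero =>
    have h0 : ∀ l ∈ G 0, wt l ≤ 1 := by
      intro l hl
      have := (mem_G.mp hl).1
      simp at this
      subst this
      simp [wt, lr, rl]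
    have hsub : G 0 ⊆ {[]} := by
      intro l hl
      have := (mem_G.mp hl).1
      simpa using this
    calc ∑ l ∈ G 0, wt l ≤ ∑ l ∈ ({[]} : Finset (List ℕ)), wt l := Finset.sum_le_sum_of_subset hsub
      _ = 1 := by simp [wt, lr, rl]
      _ = 8 ^ 0 := by norm_num
  | succ n ih =>
    calc ∑ l ∈ G (n + 1), wt l ≤ 8 * ∑ l ∈ G n, wt l := Z_step n
      _ ≤ 8 * 8 ^ n := Nat.mul_le_mul_left _ ih
      _ = 8 ^ (n + 1) := by ring

theorem G_card (n : ℕ) : (G n).card ≤ 8 ^ n := by
  refine le_trans ?_ (Z_bound n)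
  rw [Finset.card_eq_sum_ones]
  exact Finset.sum_le_sum (fun l _ => Nat.one_le_two_pow)

end Pool.Agent.Work.MP_e02782_co
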