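import Mathlib

/-! Definitions for the cube dismantling problem. -/

namespace Pool.Agent.Work.MP_e02782_co

/-- The `n ^ 3` unit cubes of an `n × n × n` cube. -/
abbrev Cell (n : ℕ) : Type := Fin n × Fin n × Fin n

/-- Two positions differ by exactly one. -/
def Near {n : ℕ} (a b : Fin n) : Prop := a.val + 1 = b.val ∨ b.val + 1 = a.val

/-- Two cubes share a face: they differ in exactly one coordinate, and there by exactly one. -/
def FaceAdj {n : ℕ} (u v : Cell n) : Prop :=
  (Near u.1 v.1 ∧ u.2.1 = v.2.1 ∧ u.2.2 = v.2.2) ∨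
  (u.1 = v.1 ∧ Near u.2.1 v.2.1 ∧ u.2.2 = v.2.2) ∨
  (u.1 = v.1 ∧ u.2.1 = v.2.1 ∧ Near u.2.2 v.2.2)

open Classical in
/-- One move: delete from `S` a cube having exactly three neighbours in `S`. -/
def Move {n : ℕ} (S S' : Finset (Cell n)) : Prop :=
  ∃ v ∈ S, (S.filter (fun u => FaceAdj v u)).card = 3 ∧ S' = S.erase v

/-- `B` consists of `n ^ 2` pairwise non-adjacent cubes and is reached from the whole cube by
finitely many moves. -/
def IsSolution {n : ℕ} (B : Finset (Cell n)) : Prop :=
  B.card = n ^ 2 ∧ (∀ u ∈ B, ∀ v ∈ B, ¬ FaceAdj u v) ∧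
    Relation.ReflTransGen Move Finset.univ B

/-- Each symbol occurs exactly once in every row and exactly once in every column. -/
def IsLatin {n : ℕ} (L : Fin n → Fin n → Fin n) : Prop :=
  (∀ i k, ∃! j, L i j = k) ∧ (∀ j k, ∃! i, L i j = k)

/-- Latin squares of order `n`. -/
abbrev LatinSquare (n : ℕ) : Type := {L : Fin n → Fin n → Fin n // IsLatin L}

open Classical in
/-- The set of cubes `(i, j, L i j)` associated with a Latin square. -/
noncomputable def cells {n : ℕ} (L : LatinSquare n) : Finset (Cell n) :=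
  Finset.univ.image (fun p : Fin n × Fin n => (p.1, p.2, L.1 p.1 p.2))

/-- `M` arises from `L` by permuting rows, columns and symbols. -/
def Isotopic {n : ℕ} (L M : LatinSquare n) : Prop :=
  ∃ α β γ : Equiv.Perm (Fin n), ∀ i j, M.1 (α i) (β j) = γ (L.1 i j)

theorem isotopic_refl {n : ℕ} (L : LatinSquare n) : Isotopic L L :=
  ⟨1, 1, 1, fun _ _ => rfl⟩

theorem isotopic_symm {n : ℕ} {L M : LatinSquare n} (h : Isotopic L M) : Isotopic M L := by
  obtain ⟨α, β, γ, h⟩ := h
  refine ⟨α.symm, β.symm, γ.symm, fun i j => ?_⟩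
  have := h (α.symm i) (β.symm j)
  rw [Equiv.apply_symm_apply, Equiv.apply_symm_apply] at this
  rw [this, Equiv.symm_apply_apply]

theorem isotopic_trans {n : ℕ} {L M N : LatinSquare n} (h : Isotopic L M) (h' : Isotopic M N) :
    Isotopic L N := by
  obtain ⟨α, β, γ, h⟩ := h
  obtain ⟨α', β', γ', h'⟩ := h'
  refine ⟨α.trans α', β.trans β', γ.trans γ', fun i j => ?_⟩
  simp only [Equiv.trans_apply]
  rw [h', h]

/-- The isotopism relation. -/
def isotopy (n : ℕ) : Setoid (LatinSquare n) where
  r := Isotopic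
  iseqv := ⟨isotopic_refl, isotopic_symm, isotopic_trans⟩

/-- `I_n`: the number of isotopism classes of Latin squares of order `n`. -/
noncomputable def numClasses (n : ℕ) : ℕ := Nat.card (Quotient (isotopy n))

/-- `s_n`: the number of isotopism classes containing a Latin square that corresponds to a
solution. -/
noncomputable def numSolClasses (n : ℕ) : ℕ :=
  Nat.card {q : Quotient (isotopy n) //
    ∃ L : LatinSquare n, Quotient.mk (isotopy n) L = q ∧ IsSolution (cells L)}

end Pool.Agent.Work.MP_e02782_co
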