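import Pool.Agent.Work.MP_e02782_co.SDR

/-! Lower bound for the number of Latin squares by row-by-row extension. -/

namespace Pool.Agent.Work.MP_e02782_co

open Finset

def IsRect {r n : ℕ} (R : Fin r → Fin n → Fin n) : Prop :=
  (∀ i, Function.Injective (R i)) ∧ ∀ j, Function.Injective (fun i => R i j)

abbrev Rect (r n : ℕ) : Type := {R : Fin r → Fin n → Fin n // IsRect R}

/-- symbols still free in column `j` -/
def free {r n : ℕ} (R : Fin r → Fin n → Fin n) (j : Fin n) : Finset (Fin n) :=
  univ \ univ.image (fun i => R i j)

theorem card_free {r n : ℕ} {R : Fin r → Fin n → Fin n} (hR : IsRect R) (j : Fin n) :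
    (free R j).card = n - r := by
  unfold free
  rw [Finset.card_sdiff_of_subset (Finset.subset_univ _), Finset.card_image_of_injective _ (hR.2 j)]
  simp

theorem card_cols {r n : ℕ} {R : Fin r → Fin n → Fin n} (hR : IsRect R) (k : Fin n) :
    (univ.filter (fun j => k ∈ free R j)).card = n - r := by
  classical
  have hex : ∀ i, ∃ j, R i j = k := fun i => (Finite.injective_iff_surjective.mp (hR.1 i)) k
  choose c hc using hex
  have hcinj : Function.Injective c := by
    intro i i' h
    have h1 := hc i
    have h2 := hc i'
    rw [← h] at h2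
    exact hR.2 (c i) (by simpa using h1.trans h2.symm)
  have : univ.filter (fun j => k ∈ free R j) = univ \ univ.image c := by
    ext j
    simp only [free, mem_filter, mem_univ, true_and, mem_sdiff, mem_image, not_exists]
    constructor
    · intro h i hi
      exact h i (by rw [← hi]; exact hc i)
    · intro h i hi
      exact h i (hR.1 i (by rw [hc i, hi]))
  rw [this, Finset.card_sdiff_of_subset (Finset.subset_univ _), Finset.card_image_of_injective _ hcinj]
  simp

theorem hall_free {r n : ℕ} (hrn : r < n) {R : Fin r → Fin n → Fin n} (hR : IsRect R)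
    (s : Finset (Fin n)) : s.card ≤ (s.biUnion (free R)).card := by
  classical
  have h1 : s.card * (n - r) = ∑ j ∈ s, (free R j).card := by
    rw [Finset.sum_congr rfl (fun j _ => card_free hR j), Finset.sum_const, smul_eq_mul]
  have h2 : ∑ j ∈ s, (free R j).card = ∑ k ∈ s.biUnion (free R), (s.filter (fun j => k ∈ free R j)).card := by
    have e1 : ∀ j ∈ s, (free R j).card = ∑ k ∈ s.biUnion (free R), if k ∈ free R j then 1 else 0 := by
      intro j hj
      rw [← Finset.sum_filter, Finset.sum_const, smul_eq_mul, mul_one]
      congr 1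
      ext k
      simp only [mem_filter, mem_biUnion]
      exact ⟨fun h => ⟨⟨j, hj, h⟩, h⟩, fun h => h.2⟩
    rw [Finset.sum_congr rfl e1, Finset.sum_comm]
    apply Finset.sum_congr rfl
    intro k _
    rw [← Finset.sum_filter, Finset.sum_const, smul_eq_mul, mul_one]
  have h3 : ∑ k ∈ s.biUnion (free R), (s.filter (fun j => k ∈ free R j)).card ≤
      ∑ k ∈ s.biUnion (free R), (n - r) := by
    apply Finset.sum_le_sum
    intro k _
    rw [← card_cols hR k]
    exact Finset.card_le_card (Finset.filter_subset_filter _ (Finset.subset_univ _))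
  rw [Finset.sum_const, smul_eq_mul] at h3
  have h4 : s.card * (n - r) ≤ (s.biUnion (free R)).card * (n - r) := by
    rw [h1, h2]; exact h3
  exact Nat.le_of_mul_le_mul_right h4 (by omega)

theorem rect_step {r n : ℕ} (hrn : r < n) :
    Nat.card (Rect r n) * (n - r).factorial ≤ Nat.card (Rect (r + 1) n) := by
  classical
  have hΦ : ∃ Φ : (Σ R : Rect r n, SDR (free R.1)) → Rect (r + 1) n, Function.Injective Φ := by
    refine ⟨fun p => ⟨Fin.snoc (α := fun _ => Fin n → Fin n) p.1.1 p.2.1, ?_, ?_⟩, ?_⟩
    · intro i
      refine Fin.lastCases ?_ (fun i => ?_) i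
      · rw [Fin.snoc_last]; exact p.2.2.1
      · rw [Fin.snoc_castSucc]; exact p.1.2.1 i
    · intro j
      have hf : p.2.1 j ∉ univ.image (fun i => p.1.1 i j) := by
        have := p.2.2.2 j
        unfold free at this
        rw [mem_sdiff] at this
        exact this.2
      have hf' : ∀ i, p.1.1 i j ≠ p.2.1 j := fun i h => hf (mem_image.mpr ⟨i, mem_univ _, h⟩)
      intro a b
      refine Fin.lastCases ?_ (fun a => ?_) a
      · refine Fin.lastCases ?_ (fun b => ?_) b
        · intro _; rfl
        · simp only [Fin.snoc_last, Fin.snoc_castSucc]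
          intro h; exact absurd h.symm (hf' b)
      · refine Fin.lastCases ?_ (fun b => ?_) b
        · simp only [Fin.snoc_last, Fin.snoc_castSucc]
          intro h; exact absurd h (hf' a)
        · simp only [Fin.snoc_castSucc]
          intro h
          rw [p.1.2.2 j h]
    · rintro ⟨R, f⟩ ⟨R', f'⟩ h
      have h := congrArg Subtype.val h
      have h1 : R.1 = R'.1 := by
        funext i
        have := congrFun h (Fin.castSucc i)
        simpa [Fin.snoc_castSucc] using this
      have h2 : R = R' := Subtype.ext h1
      subst h2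
      congr 1
      apply Subtype.ext
      have := congrFun h (Fin.last r)
      simpa [Fin.snoc_last] using this
  obtain ⟨Φ, hinj⟩ := hΦ
  have h1 := Nat.card_le_card_of_injective Φ hinj
  refine le_trans ?_ h1
  rw [Nat.card_sigma]
  have h2 : ∑ _R : Rect r n, (n - r).factorial ≤ ∑ R : Rect r n, Nat.card (SDR (free R.1)) := by
    apply Finset.sum_le_sum
    intro R _
    have := sdr_count_aux n (Fin n) (Fin n) (n - r) (free R.1) (Fintype.card_fin n)
      (hall_free hrn R.2) (fun j => (card_free R.2 j).ge)
    rw [min_eq_left (by omega), Nat.descFactorial_self] at this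
    exact this
  refine le_trans ?_ h2
  rw [Finset.sum_const, smul_eq_mul, Finset.card_univ, Nat.card_eq_fintype_card]

theorem rect_lower (n : ℕ) : ∀ r, r ≤ n → ∏ i ∈ range r, (n - i).factorial ≤ Nat.card (Rect r n) := by
  intro r
  induction r with
  | zero =>
    intro _
    have : Nonempty (Rect 0 n) := ⟨⟨fun i => i.elim0, fun i => i.elim0, fun j i => i.elim0⟩⟩
    rw [Finset.prod_range_zero]
    exact Nat.card_pos
  | succ r ih =>
    intro h
    rw [Finset.prod_range_succ]
    exact le_trans (Nat.mul_le_mul_right _ (ih (by omega))) (rect_step (by omega))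

theorem prod_fact (n : ℕ) : ∏ i ∈ range n, (n - i).factorial = ∏ i ∈ range n, (i + 1).factorial := by
  rw [← Finset.prod_range_reflect]
  apply Finset.prod_congr rfl
  intro i hi
  rw [Finset.mem_range] at hi
  congr 1
  omega

theorem latin_lower (n : ℕ) : ∏ i ∈ range n, (i + 1).factorial ≤ Nat.card (Rect n n) := by
  rw [← prod_fact]; exact rect_lower n n le_rfl

end Pool.Agent.Work.MP_e02782_co
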