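import Pool.Agent.Work.MP_e02782_co.Perc
import Pool.Agent.Work.MP_e02782_co.Rect

/-! The proportion of isotopism classes containing a solution tends to zero. -/

namespace Pool.Agent.Work.MP_e02782_co

open Finset

variable {n : ℕ}

theorem no_pat1 (L : LatinSquare n) (hs : IsSolution (cells L)) (i a j j' b k k' : Fin n)
    (h1 : a < j) (h2 : j.val + 1 = j'.val) (h3 : j' < b) (h4 : k.val + 1 = k'.val)
    (ha : L.1 i a = k) (hb : L.1 i b = k') (hj : k' < L.1 i j) (hj' : L.1 i j' < k) : False := by
  -- p = (j,k) -> (j,k') -> (j',k') -> (j',k) -> p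
  refine no_cycle hs (lines1 L) (lines2 L) (lines3 L) (i, j, k) (i, j, k') (i, j', k') (i, j', k)
    ?_ ?_ ?_
  · intro h
    simp only [Prod.mk.injEq] at h
    have := h.2.1
    rw [this] at h2
    omega
  · rw [mem_cells]
    intro h
    rw [h] at hj
    have : k'.val < k.val := hj
    omega
  · intro S _ hBS hy hz
    have sa : (i, a, k) ∈ S := hBS (mem_cells.mpr ha)
    have sb : (i, b, k') ∈ S := hBS (mem_cells.mpr hb)
    have sj : (i, j, L.1 i j) ∈ S := hBS (mem_cells.mpr rfl)
    have sj' : (i, j', L.1 i j') ∈ S := hBS (mem_cells.mpr rfl)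
    have h1' : a.val < j.val := h1
    have h3' : j'.val < b.val := h3
    have hj1 : k'.val < (L.1 i j).val := hj
    have hj2 : (L.1 i j').val < k.val := hj'
    refine ⟨fun h => ?_, fun h => ?_, fun h => ?_, fun h => ?_⟩
    · exact hz _ h _ sj _ rfl rfl (by simp only [c3]; omega) (by simp only [c3]; omega)
    · exact hy _ h _ sb _ rfl rfl (by simp only [c2]; omega) (by simp only [c2]; omega)
    · exact hz _ sj' _ h _ rfl rfl (by simp only [c3]; omega) (by simp only [c3]; omega)
    · exact hy _ sa _ h _ rfl rfl (by simp only [c2]; omega) (by simp only [c2]; omega)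

theorem no_pat2 (L : LatinSquare n) (hs : IsSolution (cells L)) (i a j j' b k k' : Fin n)
    (h1 : b < j) (h2 : j.val + 1 = j'.val) (h3 : j' < a) (h4 : k.val + 1 = k'.val)
    (ha : L.1 i a = k) (hb : L.1 i b = k') (hj : L.1 i j < k) (hj' : k' < L.1 i j') : False := by
  -- p = (j,k) -> (j',k) -> (j',k') -> (j,k') -> p
  refine no_cycle hs (lines1 L) (lines2 L) (lines3 L) (i, j, k) (i, j', k) (i, j', k') (i, j, k')
    ?_ ?_ ?_
  · intro h
    simp only [Prod.mk.injEq] at h
    have := h.2.2
    rw [this] at h4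
    omega
  · rw [mem_cells]
    intro h
    rw [h] at hj
    exact lt_irrefl _ hj
  · intro S _ hBS hy hz
    have sa : (i, a, k) ∈ S := hBS (mem_cells.mpr ha)
    have sb : (i, b, k') ∈ S := hBS (mem_cells.mpr hb)
    have sj : (i, j, L.1 i j) ∈ S := hBS (mem_cells.mpr rfl)
    have sj' : (i, j', L.1 i j') ∈ S := hBS (mem_cells.mpr rfl)
    have h1' : b.val < j.val := h1
    have h3' : j'.val < a.val := h3
    have hj1 : (L.1 i j).val < k.val := hj
    have hj2 : k'.val < (L.1 i j').val := hj'
    refine ⟨fun h => ?_, fun h => ?_, fun h => ?_, fun h => ?_⟩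
    · exact hy _ h _ sa _ rfl rfl (by simp only [c2]; omega) (by simp only [c2]; omega)
    · exact hz _ h _ sj' _ rfl rfl (by simp only [c3]; omega) (by simp only [c3]; omega)
    · exact hy _ sb _ h _ rfl rfl (by simp only [c2]; omega) (by simp only [c2]; omega)
    · exact hz _ sj _ h _ rfl rfl (by simp only [c3]; omega) (by simp only [c3]; omega)

/-- discrete intermediate value principle -/
theorem exists_switch (Q : ℕ → Prop) (a b : ℕ) (hab : a < b) (ha : Q a) (hb : ¬ Q b) :
    ∃ k, a ≤ k ∧ k < b ∧ Q k ∧ ¬ Q (k + 1) := by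
  by_contra hcon
  push Not at hcon
  have : ∀ d, a + d ≤ b → Q (a + d) := by
    intro d
    induction d with
    | zero => intro _; exact ha
    | succ d ih =>
      intro h
      exact hcon (a + d) (by omega) (by omega) (ih (by omega))
  have h := this (b - a) (by omega)
  rw [Nat.add_sub_cancel' hab.le] at h
  exact hb h

/-- the word of a row -/
def word (f : Fin n → Fin n) : List ℕ := List.ofFn (fun j => (f j : ℕ))

theorem word_inj : Function.Injective (word : (Fin n → Fin n) → List ℕ) := by
  intro f g h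
  have := List.ofFn_injective h
  funext j
  exact Fin.ext (congrFun this j)

theorem word_perm (f : Fin n → Fin n) (hf : Function.Injective f) :
    (word f).Perm (List.range n) := by
  have hnd : (List.ofFn (fun j => (f j : ℕ))).Nodup :=
    List.nodup_ofFn_ofInjective (Fin.val_injective.comp hf)
  unfold word
  rw [List.perm_ext_iff_of_nodup hnd List.nodup_range]
  intro a
  rw [List.mem_ofFn, List.mem_range]
  constructor
  · rintro ⟨j, rfl⟩
    exact (f j).2
  · intro ha
    obtain ⟨j, hj⟩ := (Finite.injective_iff_surjective.mp hf) ⟨a, ha⟩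
    exact ⟨j, by rw [hj]⟩

theorem row_injective (L : LatinSquare n) (i : Fin n) : Function.Injective (L.1 i) := by
  intro a b h
  exact (L.2.1 i (L.1 i b)).unique h rfl

theorem row_bax (L : LatinSquare n) (hs : IsSolution (cells L)) (i : Fin n) :
    Bax (word (L.1 i)) := by
  intro u v x y he a ha b hb
  set f := L.1 i with hf
  have hlen : u.length + v.length + 2 = n := by
    have h1 : (word f).length = n := by simp [word]
    rw [he] at h1
    simp at h1
    omega
  have get : ∀ (m : ℕ) (hm : m < n) (w : ℕ), (u ++ x :: y :: v)[m]? = some w →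
      (f ⟨m, hm⟩ : ℕ) = w := by
    intro m hm w hw
    rw [← he] at hw
    unfold word at hw
    rw [List.getElem?_ofFn] at hw
    simpa [hm] using hw
  have hx : (f ⟨u.length, by omega⟩ : ℕ) = x := get _ _ _ (by simp)
  have hy : (f ⟨u.length + 1, by omega⟩ : ℕ) = y := get _ _ _ (by simp)
  obtain ⟨ma, hma, hma'⟩ := List.mem_iff_getElem.mp ha
  obtain ⟨mb, hmb, hmb'⟩ := List.mem_iff_getElem.mp hb
  have hfa : (f ⟨ma, by omega⟩ : ℕ) = a := get _ _ _ (by
    rw [List.getElem?_append_left hma, List.getElem?_eq_getElem hma, hma'])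
  have hfb : (f ⟨u.length + 2 + mb, by omega⟩ : ℕ) = b := get _ _ _ (by
    rw [List.getElem?_append_right (by omega)]
    have : u.length + 2 + mb - u.length = mb + 1 + 1 := by omega
    rw [this, List.getElem?_cons_succ, List.getElem?_cons_succ,
      List.getElem?_eq_getElem hmb, hmb'])
  have hinj : Function.Injective f := row_injective L i
  have hinj' : ∀ m m' (hm : m < n) (hm' : m' < n), (f ⟨m, hm⟩ : ℕ) = f ⟨m', hm'⟩ → m = m' := by
    intro m m' hm hm' h
    have := hinj (Fin.ext h)
    simpa using this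
  have hsurj : ∀ k, k < n → ∃ m, ∃ hm : m < n, (f ⟨m, hm⟩ : ℕ) = k := by
    intro k hk
    obtain ⟨j, hj⟩ := (Finite.injective_iff_surjective.mp hinj) ⟨k, hk⟩
    exact ⟨j.1, j.2, by rw [hj]⟩
  set Q : ℕ → Prop := fun k => ∃ m, ∃ hm : m < u.length, (f ⟨m, by omega⟩ : ℕ) = k with hQ
  have hQa : Q a := ⟨ma, hma, hfa⟩
  have hQb : ¬ Q b := by
    rintro ⟨m, hm, h⟩
    have := hinj' m (u.length + 2 + mb) (by omega) (by omega) (by rw [h, hfb])
    omega
  constructor
  · rintro ⟨g1, g2, g3⟩
    obtain ⟨k, hk1, hk2, hk3, hk4⟩ := exists_switch Q a b g2 hQa hQb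
    have hxn : x < n := by rw [← hx]; exact Fin.is_lt _
    obtain ⟨m, hm, hmk⟩ := hk3
    obtain ⟨m', hm', hmk'⟩ := hsurj (k + 1) (by omega)
    have hnot : ¬ m' < u.length := fun h => hk4 ⟨m', h, hmk'⟩
    have hne1 : m' ≠ u.length := by
      intro h; subst h; omega
    have hne2 : m' ≠ u.length + 1 := by
      intro h; subst h; omega
    refine no_pat1 L hs i ⟨m, by omega⟩ ⟨u.length, by omega⟩ ⟨u.length + 1, by omega⟩ ⟨m', hm'⟩
      ⟨k, by omega⟩ ⟨k + 1, by omega⟩ ?_ rfl ?_ rfl ?_ ?_ ?_ ?_
    · exact hm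
    · show u.length + 1 < m'
      omega
    · exact Fin.ext hmk
    · exact Fin.ext hmk'
    · show k + 1 < (f ⟨u.length, _⟩ : ℕ)
      rw [hx]; omega
    · show (f ⟨u.length + 1, _⟩ : ℕ) < k
      rw [hy]; omega
  · rintro ⟨g1, g2, g3⟩
    obtain ⟨k, hk1, hk2, hk3, hk4⟩ := exists_switch (fun k => ¬ Q k) b a g2 hQb (not_not.mpr hQa)
    rw [not_not] at hk4
    have hyn : y < n := by rw [← hy]; exact Fin.is_lt _
    obtain ⟨m, hm, hmk⟩ := hk4
    obtain ⟨m', hm', hmk'⟩ := hsurj k (by omega)
    have hnot : ¬ m' < u.length := fun h => hk3 ⟨m', h, hmk'⟩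
    have hne1 : m' ≠ u.length := by
      intro h; subst h; omega
    have hne2 : m' ≠ u.length + 1 := by
      intro h; subst h; omega
    refine no_pat2 L hs i ⟨m', hm'⟩ ⟨u.length, by omega⟩ ⟨u.length + 1, by omega⟩ ⟨m, by omega⟩
      ⟨k, by omega⟩ ⟨k + 1, by omega⟩ ?_ rfl ?_ rfl ?_ ?_ ?_ ?_
    · exact hm
    · show u.length + 1 < m'
      omega
    · exact Fin.ext hmk'
    · exact Fin.ext hmk
    · show (f ⟨u.length, _⟩ : ℕ) < k
      rw [hx]; omega
    · show k + 1 < (f ⟨u.length + 1, _⟩ : ℕ)
      rw [hy]; omega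

/-- number of Latin squares corresponding to a solution -/
theorem solution_count (n : ℕ) :
    Nat.card {L : LatinSquare n // IsSolution (cells L)} ≤ 8 ^ (n * n) := by
  classical
  have hmem : ∀ (L : {L : LatinSquare n // IsSolution (cells L)}) (i : Fin n),
      word (L.1.1 i) ∈ G n := fun L i =>
    mem_G.mpr ⟨word_perm _ (row_injective L.1 i), row_bax L.1 L.2 i⟩
  have hinj : Function.Injective
      (fun (L : {L : LatinSquare n // IsSolution (cells L)}) (i : Fin n) =>
        (⟨word (L.1.1 i), hmem L i⟩ : G n)) := by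
    intro L L' h
    apply Subtype.ext
    apply Subtype.ext
    funext i
    have := congrFun h i
    simp only [Subtype.mk.injEq] at this
    exact word_inj this
  have h1 := Nat.card_le_card_of_injective _ hinj
  refine le_trans h1 ?_
  rw [Nat.card_eq_fintype_card, Fintype.card_fun, Fintype.card_fin, Fintype.card_coe, pow_mul]
  exact Nat.pow_le_pow_left (G_card n) n

theorem rect_eq_latin {L : Fin n → Fin n → Fin n} (h : IsRect L) : IsLatin L := by
  refine ⟨fun i k => ?_, fun j k => ?_⟩
  · obtain ⟨j, hj⟩ := (Finite.injective_iff_surjective.mp (h.1 i)) k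
    exact ⟨j, hj, fun j' hj' => h.1 i (by rw [hj, hj'])⟩
  · obtain ⟨i, hi⟩ := (Finite.injective_iff_surjective.mp (h.2 j)) k
    exact ⟨i, hi, fun i' hi' => h.2 j (by simp only; rw [hi']; exact hi.symm)⟩

theorem latin_count (n : ℕ) : ∏ i ∈ range n, (i + 1).factorial ≤ Nat.card (LatinSquare n) := by
  refine le_trans (latin_lower n) ?_
  exact Nat.card_le_card_of_injective
    (fun R : Rect n n => (⟨R.1, rect_eq_latin R.2⟩ : LatinSquare n))
    (fun R R' h => Subtype.ext (Subtype.mk.inj h))

/-- every isotopism class has at most `(n!)^3` members -/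
theorem latin_le_classes (n : ℕ) :
    Nat.card (LatinSquare n) ≤ n.factorial ^ 3 * numClasses n := by
  classical
  have hfin : Finite (Quotient (isotopy n)) := Quotient.finite _
  have : Fintype (Quotient (isotopy n)) := Fintype.ofFinite _
  have hcls : ∀ q : Quotient (isotopy n),
      (univ.filter (fun L : LatinSquare n => Quotient.mk (isotopy n) L = q)).card
        ≤ n.factorial ^ 3 := by
    intro q
    obtain ⟨L, rfl⟩ := Quotient.exists_rep q
    have hsub : univ.filter (fun M : LatinSquare n => Quotient.mk (isotopy n) M =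
        Quotient.mk (isotopy n) L) ⊆
        (univ : Finset (Equiv.Perm (Fin n) × Equiv.Perm (Fin n) × Equiv.Perm (Fin n))).biUnion
          (fun p => univ.filter (fun M : LatinSquare n =>
            ∀ i j, M.1 (p.1 i) (p.2.1 j) = p.2.2 (L.1 i j))) := by
      intro M hM
      rw [Finset.mem_filter] at hM
      have h1 : Isotopic L M := isotopic_symm (Quotient.exact hM.2)
      obtain ⟨α, β, γ, h⟩ := h1
      rw [Finset.mem_biUnion]
      exact ⟨(α, β, γ), mem_univ _, by simpa using h⟩
    refine le_trans (Finset.card_le_card hsub) ?_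
    refine le_trans Finset.card_biUnion_le ?_
    have h1 : ∀ p ∈ (univ : Finset (Equiv.Perm (Fin n) × Equiv.Perm (Fin n) × Equiv.Perm (Fin n))),
        (univ.filter (fun M : LatinSquare n =>
            ∀ i j, M.1 (p.1 i) (p.2.1 j) = p.2.2 (L.1 i j))).card ≤ 1 := by
      intro p _
      rw [Finset.card_le_one]
      intro M hM M' hM'
      rw [Finset.mem_filter] at hM hM'
      apply Subtype.ext
      funext i j
      have e1 := hM.2 (p.1.symm i) (p.2.1.symm j)
      have e2 := hM'.2 (p.1.symm i) (p.2.1.symm j)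
      simp only [Equiv.apply_symm_apply] at e1 e2
      rw [e1, e2]
    refine le_trans (Finset.sum_le_sum h1) ?_
    rw [Finset.sum_const, smul_eq_mul, mul_one, Finset.card_univ]
    simp only [Fintype.card_prod, Fintype.card_perm, Fintype.card_fin]
    apply le_of_eq
    ring
  have h2 := Finset.card_le_mul_card_image (f := fun L : LatinSquare n => Quotient.mk (isotopy n) L)
    (univ : Finset (LatinSquare n)) (n.factorial ^ 3) (fun q _ => hcls q)
  rw [Finset.card_univ] at h2
  rw [Nat.card_eq_fintype_card]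
  refine le_trans h2 (Nat.mul_le_mul_left _ ?_)
  unfold numClasses
  rw [Nat.card_eq_fintype_card]
  exact Finset.card_le_univ _

theorem solClasses_le (n : ℕ) : numSolClasses n ≤ 8 ^ (n * n) := by
  refine le_trans ?_ (solution_count n)
  unfold numSolClasses
  apply Nat.card_le_card_of_surjective
    (fun L : {L : LatinSquare n // IsSolution (cells L)} =>
      (⟨Quotient.mk (isotopy n) L.1, L.1, rfl, L.2⟩ : {q : Quotient (isotopy n) //
        ∃ L : LatinSquare n, Quotient.mk (isotopy n) L = q ∧ IsSolution (cells L)}))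
  rintro ⟨q, L, rfl, hL⟩
  exact ⟨⟨L, hL⟩, rfl⟩

theorem main_ineq (n : ℕ) :
    numSolClasses n * ∏ i ∈ range n, (i + 1).factorial ≤ 64 ^ (n * n) * numClasses n := by
  have h1 := solClasses_le n
  have h2 := (latin_count n).trans (latin_le_classes n)
  have h3 : n.factorial ^ 3 ≤ 8 ^ (n * n) := by
    have e1 : n.factorial ≤ n ^ n := Nat.factorial_le_pow n
    have e2 : n ^ n ≤ (2 ^ n) ^ n := Nat.pow_le_pow_left (Nat.lt_two_pow_self).le n
    calc n.factorial ^ 3 ≤ ((2 ^ n) ^ n) ^ 3 := Nat.pow_le_pow_left (e1.trans e2) 3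
      _ = 8 ^ (n * n) := by
        rw [← pow_mul, ← pow_mul, show (8 : ℕ) = 2 ^ 3 from rfl, ← pow_mul]
        congr 1
        ring
  calc numSolClasses n * ∏ i ∈ range n, (i + 1).factorial
      ≤ 8 ^ (n * n) * (n.factorial ^ 3 * numClasses n) := Nat.mul_le_mul h1 h2
    _ ≤ 8 ^ (n * n) * (8 ^ (n * n) * numClasses n) := by gcongr
    _ = 64 ^ (n * n) * numClasses n := by
        rw [← mul_assoc, ← mul_pow]
        norm_num

theorem ratio_tendsto :
    Filter.Tendsto (fun n : ℕ => (64 : ℝ) ^ (n * n) / ∏ i ∈ range n, ((i + 1).factorial : ℝ))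
      Filter.atTop (nhds 0) := by
  have hpos : ∀ n : ℕ, (0 : ℝ) < (64 : ℝ) ^ (n * n) / ∏ i ∈ range n, ((i + 1).factorial : ℝ) := by
    intro n
    apply div_pos (by positivity)
    apply Finset.prod_pos
    intro i _
    exact_mod_cast Nat.factorial_pos _
  apply Summable.tendsto_atTop_zero
  apply summable_of_ratio_test_tendsto_lt_one (l := 0) (by norm_num)
  · exact Filter.Eventually.of_forall (fun n => (hpos n).ne')
  · have h1 : ∀ n : ℕ, ‖(64 : ℝ) ^ ((n + 1) * (n + 1)) / ∏ i ∈ range (n + 1), ((i + 1).factorial : ℝ)‖ /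
        ‖(64 : ℝ) ^ (n * n) / ∏ i ∈ range n, ((i + 1).factorial : ℝ)‖ =
        (1 / 64) * ((64 ^ 2 : ℝ) ^ (n + 1) / ((n + 1).factorial : ℝ)) := by
      intro n
      rw [Real.norm_of_nonneg (hpos (n + 1)).le, Real.norm_of_nonneg (hpos n).le,
        Finset.prod_range_succ]
      have hP : (∏ i ∈ range n, ((i + 1).factorial : ℝ)) ≠ 0 := by
        apply ne_of_gt
        apply Finset.prod_pos
        intro i _
        exact_mod_cast Nat.factorial_pos _
      have hF : (((n + 1).factorial : ℕ) : ℝ) ≠ 0 := by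
        exact_mod_cast (Nat.factorial_pos _).ne'
      have e1 : (64 : ℝ) ^ ((n + 1) * (n + 1)) = 64 ^ (n * n) * ((1 / 64) * (64 ^ 2) ^ (n + 1)) := by
        rw [← pow_mul]
        have : (n + 1) * (n + 1) + 1 = n * n + 2 * (n + 1) := by ring
        have e2 : (64 : ℝ) ^ ((n + 1) * (n + 1) + 1) = 64 ^ (n * n + 2 * (n + 1)) := by rw [this]
        rw [pow_succ, pow_add] at e2
        linarith
      rw [e1]
      field_simp
    simp_rw [h1]
    have h2 := (FloorSemiring.tendsto_pow_div_factorial_atTop (64 ^ 2 : ℝ)).comp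
      (Filter.tendsto_add_atTop_nat 1)
    have h3 := h2.const_mul (1 / 64 : ℝ)
    simpa using h3

theorem main : Filter.Tendsto (fun n : ℕ => (numSolClasses n : ℝ) / (numClasses n : ℝ))
    Filter.atTop (nhds 0) := by
  refine squeeze_zero (fun n => by positivity) (fun n => ?_) ratio_tendsto
  have hP : (0 : ℝ) < ∏ i ∈ range n, ((i + 1).factorial : ℝ) := by
    apply Finset.prod_pos
    intro i _
    exact_mod_cast Nat.factorial_pos _
  rcases Nat.eq_zero_or_pos (numClasses n) with h0 | hpos
  · rw [h0]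
    simp only [Nat.cast_zero, div_zero]
    positivity
  · have hc : (0 : ℝ) < (numClasses n : ℝ) := by exact_mod_cast hpos
    rw [div_le_div_iff₀ hc hP]
    have := main_ineq n
    exact_mod_cast this

end Pool.Agent.Work.MP_e02782_co
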