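import Pool.Agent.Work.MP_e02782_co.Defs
import Pool.Agent.Work.MP_e02782_co.Bax

/-! Rows of a Latin square corresponding to a solution avoid 2-41-3 and 3-14-2. -/

namespace Pool.Agent.Work.MP_e02782_co

open Finset

set_option linter.unusedSectionVars false

section Lines

variable {V P : Type} [DecidableEq V] [Fintype P] [DecidableEq P]

open Classical in
/-- number of ordered pairs in relation -/
noncomputable def pc (r : V → V → Prop) (S : Finset V) : ℕ :=
  ∑ u ∈ S, ∑ w ∈ S, if r u w then 1 else 0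

open Classical in
theorem pc_erase (r : V → V → Prop) (hr : ∀ v, ¬ r v v) (S : Finset V) (v : V) (hv : v ∈ S) :
    pc r S = pc r (S.erase v) + (∑ w ∈ S, if r v w then 1 else 0) +
      (∑ w ∈ S, if r w v then 1 else 0) := by
  unfold pc
  rw [← Finset.add_sum_erase S _ hv]
  have h1 : ∀ u ∈ S.erase v, (∑ w ∈ S, if r u w then 1 else 0) =
      (if r u v then 1 else 0) + ∑ w ∈ S.erase v, if r u w then 1 else 0 := by
    intro u _
    rw [← Finset.add_sum_erase S _ hv]
  rw [Finset.sum_congr rfl h1, Finset.sum_add_distrib]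
  have h2 : (∑ w ∈ S, if r w v then 1 else 0) = ∑ w ∈ S.erase v, if r w v then 1 else 0 := by
    rw [← Finset.add_sum_erase S _ hv, if_neg (hr v), zero_add]
  rw [h2]
  ring

/-- successor on a line -/
def Nx (π : V → P) (c : V → ℕ) (u w : V) : Prop := π u = π w ∧ c u + 1 = c w

open Classical in
/-- right ends of the intervals cut out by `S` on the lines -/
noncomputable def ends (π : V → P) (c : V → ℕ) (S : Finset V) : Finset V :=
  S.filter (fun u => ∀ w ∈ S, ¬ Nx π c u w)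

open Classical in
theorem pc_add_ends (π : V → P) (c : V → ℕ) (hinj : ∀ u v, π u = π v → c u = c v → u = v)
    (S : Finset V) : pc (Nx π c) S + (ends π c S).card = S.card := by
  unfold pc ends
  rw [Finset.card_filter, ← Finset.sum_add_distrib, Finset.card_eq_sum_ones]
  apply Finset.sum_congr rfl
  intro u _
  by_cases h : ∀ w ∈ S, ¬ Nx π c u w
  · rw [if_pos h, Finset.sum_eq_zero]
    intro w hw
    rw [if_neg (h w hw)]
  · rw [if_neg h]
    push Not at h
    obtain ⟨w, hw, hr⟩ := h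
    rw [Finset.sum_eq_single w]
    · rw [if_pos hr]
    · intro w' _ hne
      rw [if_neg]
      intro hr'
      apply hne
      apply hinj
      · rw [← hr'.1, hr.1]
      · rw [← hr'.2, hr.2]
    · intro h'; exact absurd hw h'

theorem exists_end (π : V → P) (c : V → ℕ) (S : Finset V) (p : P) (b : ℕ)
    (h : ∃ u ∈ S, π u = p ∧ c u < b) (hb : ∀ u ∈ S, π u = p → c u ≠ b) :
    ∃ u ∈ ends π c S, π u = p ∧ c u < b := by
  classical
  obtain ⟨u0, hu0, hp0, hc0⟩ := h
  have hne : (S.filter (fun u => π u = p ∧ c u < b)).Nonempty := ⟨u0, by simp [hu0, hp0, hc0]⟩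
  obtain ⟨u, hu, hmax⟩ := Finset.exists_max_image _ c hne
  rw [Finset.mem_filter] at hu
  refine ⟨u, ?_, hu.2.1, hu.2.2⟩
  unfold ends
  rw [Finset.mem_filter]
  refine ⟨hu.1, fun w hw hr => ?_⟩
  have hwp : π w = p := by rw [← hr.1, hu.2.1]
  have h1 : c w ≠ b := hb w hw hwp
  have h2 : c w < b := by
    have := hr.2; have := hu.2.2; omega
  have h3 := hmax w (by simp [hw, hwp, h2])
  have := hr.2
  omega

theorem ends_surj (π : V → P) (c : V → ℕ) (S : Finset V) (hS : ∀ p, ∃ u ∈ S, π u = p) (p : P) :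
    ∃ u ∈ ends π c S, π u = p := by
  obtain ⟨u0, hu0, hp0⟩ := hS p
  obtain ⟨u, h1, h2, _⟩ := exists_end π c S p ((S.sup c) + 1)
    ⟨u0, hu0, hp0, Nat.lt_succ_of_le (Finset.le_sup hu0)⟩
    (fun u hu _ h => by have := Finset.le_sup (f := c) hu; omega)
  exact ⟨u, h1, h2⟩

theorem card_le_ends (π : V → P) (c : V → ℕ) (S : Finset V) (hS : ∀ p, ∃ u ∈ S, π u = p) :
    Fintype.card P ≤ (ends π c S).card := by
  rw [← Finset.card_univ]
  apply Finset.card_le_card_of_surjOn π
  intro p _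
  obtain ⟨u, hu, hp⟩ := ends_surj π c S hS p
  exact ⟨u, hu, hp⟩

theorem interval_of_card (π : V → P) (c : V → ℕ)
    (S : Finset V) (hS : ∀ p, ∃ u ∈ S, π u = p) (hc : (ends π c S).card ≤ Fintype.card P)
    {u z w : V} (hu : u ∈ S) (hw : w ∈ S) (hz1 : π u = π z) (hz2 : π z = π w)
    (h1 : c u < c z) (h2 : c z < c w) (hinj : ∀ u v, π u = π v → c u = c v → u = v) : z ∈ S := by
  by_contra hz
  have hb : ∀ x ∈ S, π x = π z → c x ≠ c z := by
    intro x hx hp he
    exact hz ((hinj x z hp he) ▸ hx)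
  obtain ⟨e1, he1, hp1, hc1⟩ := exists_end π c S (π z) (c z) ⟨u, hu, hz1, h1⟩ hb
  have hb2 : ∀ x ∈ S, π x = π z → c x ≠ (S.sup c) + 1 := by
    intro x hx _ h
    have := Finset.le_sup (f := c) hx
    omega
  -- the maximal element of the line
  classical
  have hne : (S.filter (fun x => π x = π z)).Nonempty := ⟨w, by simp [hw, hz2]⟩
  obtain ⟨m, hm, hmax⟩ := Finset.exists_max_image _ c hne
  rw [Finset.mem_filter] at hm
  have hme : m ∈ ends π c S := by
    unfold ends
    rw [Finset.mem_filter]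
    refine ⟨hm.1, fun x hx hr => ?_⟩
    have := hmax x (by rw [Finset.mem_filter]; exact ⟨hx, by rw [← hr.1, hm.2]⟩)
    have := hr.2
    omega
  have hwm := hmax w (by simp [hw, hz2])
  have hinj' : Set.InjOn π (ends π c S : Set V) := by
    have := Finset.injOn_of_surjOn_of_card_le (s := ends π c S) (t := (univ : Finset P)) π
      (fun _ _ => by simp)
      (fun p _ => by
        obtain ⟨u, hu, hp⟩ := ends_surj π c S hS p
        exact ⟨u, hu, hp⟩) (by rw [Finset.card_univ]; exact hc)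
    exact this
  have := hinj' he1 hme (by rw [hp1, hm.2])
  subst this
  omega

end Lines

section Cube

variable {n : ℕ}

def pi1 (u : Cell n) : Fin n × Fin n := (u.2.1, u.2.2)
def pi2 (u : Cell n) : Fin n × Fin n := (u.1, u.2.2)
def pi3 (u : Cell n) : Fin n × Fin n := (u.1, u.2.1)
def c1 (u : Cell n) : ℕ := u.1.val
def c2 (u : Cell n) : ℕ := u.2.1.val
def c3 (u : Cell n) : ℕ := u.2.2.val

theorem inj1 (u v : Cell n) (h : pi1 u = pi1 v) (h' : c1 u = c1 v) : u = v := by
  obtain ⟨a, b, c⟩ := u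
  obtain ⟨a', b', c'⟩ := v
  simp only [pi1, c1, Prod.mk.injEq] at *
  exact ⟨Fin.ext h', h.1, h.2⟩

theorem inj2 (u v : Cell n) (h : pi2 u = pi2 v) (h' : c2 u = c2 v) : u = v := by
  obtain ⟨a, b, c⟩ := u
  obtain ⟨a', b', c'⟩ := v
  simp only [pi2, c2, Prod.mk.injEq] at *
  exact ⟨h.1, Fin.ext h', h.2⟩

theorem inj3 (u v : Cell n) (h : pi3 u = pi3 v) (h' : c3 u = c3 v) : u = v := by
  obtain ⟨a, b, c⟩ := u
  obtain ⟨a', b', c'⟩ := v
  simp only [pi3, c3, Prod.mk.injEq] at *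
  exact ⟨h.1, h.2, Fin.ext h'⟩

open Classical in
theorem adj_count (u w : Cell n) :
    (if FaceAdj u w then 1 else 0) =
      (if Nx pi1 c1 u w then 1 else 0) + (if Nx pi1 c1 w u then 1 else 0) +
      ((if Nx pi2 c2 u w then 1 else 0) + (if Nx pi2 c2 w u then 1 else 0)) +
      ((if Nx pi3 c3 u w then 1 else 0) + (if Nx pi3 c3 w u then 1 else 0)) := by
  obtain ⟨a, b, c⟩ := u
  obtain ⟨a', b', c'⟩ := w
  simp only [FaceAdj, Near, Nx, pi1, pi2, pi3, c1, c2, c3, Prod.mk.injEq, Fin.ext_iff]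
  obtain ⟨a, _⟩ := a
  obtain ⟨b, _⟩ := b
  obtain ⟨c, _⟩ := c
  obtain ⟨a', _⟩ := a'
  obtain ⟨b', _⟩ := b'
  obtain ⟨c', _⟩ := c'
  simp only
  by_cases ha : a = a'
  · by_cases hb : b = b'
    · by_cases hc : c = c'
      · simp [ha, hb, hc]
      · have hc2 : ¬ c' = c := fun h => hc h.symm
        simp only [ha, hb, hc, hc2, true_and, and_false, false_and, false_or, or_false, and_self, if_false,
          Nat.add_eq_left, one_ne_zero, zero_add, add_zero]
        split_ifs <;> omega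
    · have hb2 : ¬ b' = b := fun h => hb h.symm
      simp only [ha, hb, hb2, true_and, and_false, false_and, false_or, or_false, if_false,
          Nat.add_eq_left, one_ne_zero, zero_add, add_zero]
      split_ifs <;> omega
  · have ha2 : ¬ a' = a := fun h => ha h.symm
    simp only [ha, ha2, and_false, false_and, false_or, or_false, if_false,
          zero_add, add_zero]
    split_ifs <;> omega

/-- total number of adjacent pairs, by direction -/
noncomputable def tot (S : Finset (Cell n)) : ℕ :=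
  pc (Nx pi1 c1) S + pc (Nx pi2 c2) S + pc (Nx pi3 c3) S

open Classical in
theorem tot_move {S S' : Finset (Cell n)} (h : Move S S') :
    tot S = tot S' + 3 ∧ S.card = S'.card + 1 ∧ S' ⊆ S := by
  obtain ⟨v, hv, hd, rfl⟩ := h
  refine ⟨?_, ?_, Finset.erase_subset _ _⟩
  · unfold tot
    rw [pc_erase (Nx pi1 c1) (fun v h => by have := h.2; omega) S v hv,
      pc_erase (Nx pi2 c2) (fun v h => by have := h.2; omega) S v hv,
      pc_erase (Nx pi3 c3) (fun v h => by have := h.2; omega) S v hv]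
    have h3 : (∑ w ∈ S, if FaceAdj v w then 1 else 0) = 3 := by
      rw [← Finset.card_filter]
      convert hd using 2
    rw [Finset.sum_congr rfl (fun w _ => adj_count v w)] at h3
    simp only [Finset.sum_add_distrib] at h3
    omega
  · rw [Finset.card_erase_of_mem hv]
    have : 0 < S.card := Finset.card_pos.mpr ⟨v, hv⟩
    omega

open Classical in
theorem tot_indep {B : Finset (Cell n)} (h : ∀ u ∈ B, ∀ v ∈ B, ¬ FaceAdj u v) : tot B = 0 := by
  unfold tot pc
  rw [← Finset.sum_add_distrib, ← Finset.sum_add_distrib]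
  apply Finset.sum_eq_zero
  intro u hu
  rw [← Finset.sum_add_distrib, ← Finset.sum_add_distrib]
  apply Finset.sum_eq_zero
  intro w hw
  have h1 := adj_count u w
  rw [if_neg (h u hu w hw)] at h1
  omega

open Relation in
theorem tot_chain {B S : Finset (Cell n)} (hB : ∀ u ∈ B, ∀ v ∈ B, ¬ FaceAdj u v)
    (h : ReflTransGen Move S B) : tot S + 3 * B.card = 3 * S.card ∧ B ⊆ S := by
  induction h using ReflTransGen.head_induction_on with
  | refl => exact ⟨by rw [tot_indep hB]; omega, Finset.Subset.refl _⟩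
  | head h1 _ ih =>
    obtain ⟨a1, a2, a3⟩ := tot_move h1
    exact ⟨by omega, ih.2.trans a3⟩

/-- the interval properties along the second and third coordinates -/
theorem itv {B S : Finset (Cell n)} (hB : ∀ u ∈ B, ∀ v ∈ B, ¬ FaceAdj u v) (hcard : B.card = n ^ 2)
    (hl1 : ∀ p : Fin n × Fin n, ∃ u ∈ B, pi1 u = p) (hl2 : ∀ p : Fin n × Fin n, ∃ u ∈ B, pi2 u = p)
    (hl3 : ∀ p : Fin n × Fin n, ∃ u ∈ B, pi3 u = p) (h : Relation.ReflTransGen Move S B) :
    (∀ u ∈ S, ∀ w ∈ S, ∀ z, pi2 u = pi2 z → pi2 z = pi2 w → c2 u < c2 z → c2 z < c2 w → z ∈ S) ∧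
    (∀ u ∈ S, ∀ w ∈ S, ∀ z, pi3 u = pi3 z → pi3 z = pi3 w → c3 u < c3 z → c3 z < c3 w → z ∈ S) := by
  obtain ⟨h1, hsub⟩ := tot_chain hB h
  have hP : Fintype.card (Fin n × Fin n) = n ^ 2 := by simp [sq]
  have hS1 : ∀ p : Fin n × Fin n, ∃ u ∈ S, pi1 u = p := fun p => by
    obtain ⟨u, hu, hp⟩ := hl1 p; exact ⟨u, hsub hu, hp⟩
  have hS2 : ∀ p : Fin n × Fin n, ∃ u ∈ S, pi2 u = p := fun p => by
    obtain ⟨u, hu, hp⟩ := hl2 p; exact ⟨u, hsub hu, hp⟩
  have hS3 : ∀ p : Fin n × Fin n, ∃ u ∈ S, pi3 u = p := fun p => by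
    obtain ⟨u, hu, hp⟩ := hl3 p; exact ⟨u, hsub hu, hp⟩
  have e1 := pc_add_ends pi1 c1 inj1 S
  have e2 := pc_add_ends pi2 c2 inj2 S
  have e3 := pc_add_ends pi3 c3 inj3 S
  have f1 := card_le_ends pi1 c1 S hS1
  have f2 := card_le_ends pi2 c2 S hS2
  have f3 := card_le_ends pi3 c3 S hS3
  unfold tot at h1
  rw [hP] at f1 f2 f3
  constructor
  · intro u hu w hw z hz1 hz2 hc1 hc2
    exact interval_of_card pi2 c2 S hS2 (by rw [hP]; omega) hu hw hz1 hz2 hc1 hc2 inj2
  · intro u hu w hw z hz1 hz2 hc1 hc2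
    exact interval_of_card pi3 c3 S hS3 (by rw [hP]; omega) hu hw hz1 hz2 hc1 hc2 inj3

theorem mem_cells {L : LatinSquare n} {i j k : Fin n} : (i, j, k) ∈ cells L ↔ L.1 i j = k := by
  classical
  unfold cells
  rw [Finset.mem_image]
  constructor
  · rintro ⟨⟨a, b⟩, _, h⟩
    simp only [Prod.mk.injEq] at h
    obtain ⟨rfl, rfl, h⟩ := h
    exact h
  · intro h
    exact ⟨(i, j), mem_univ _, by simp [h]⟩

theorem lines1 (L : LatinSquare n) (p : Fin n × Fin n) : ∃ u ∈ cells L, pi1 u = p := by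
  obtain ⟨j, k⟩ := p
  obtain ⟨i, hi, _⟩ := L.2.2 j k
  exact ⟨(i, j, k), mem_cells.mpr hi, rfl⟩

theorem lines2 (L : LatinSquare n) (p : Fin n × Fin n) : ∃ u ∈ cells L, pi2 u = p := by
  obtain ⟨i, k⟩ := p
  obtain ⟨j, hj, _⟩ := L.2.1 i k
  exact ⟨(i, j, k), mem_cells.mpr hj, rfl⟩

theorem lines3 (L : LatinSquare n) (p : Fin n × Fin n) : ∃ u ∈ cells L, pi3 u = p := by
  obtain ⟨i, j⟩ := p
  exact ⟨(i, j, L.1 i j), mem_cells.mpr rfl, rfl⟩

/-- A cyclic four-cell configuration in which every cell lies strictly between its predecessor and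
the cell of `B` on their common line cannot exist. -/
theorem no_cycle {B : Finset (Cell n)} (hsol : IsSolution B)
    (hl1 : ∀ p : Fin n × Fin n, ∃ u ∈ B, pi1 u = p) (hl2 : ∀ p : Fin n × Fin n, ∃ u ∈ B, pi2 u = p)
    (hl3 : ∀ p : Fin n × Fin n, ∃ u ∈ B, pi3 u = p)
    (p q r s : Cell n) (hsp : s ≠ p) (hpB : p ∉ B)
    (step : ∀ S : Finset (Cell n), Relation.ReflTransGen Move S B → B ⊆ S →
      (∀ u ∈ S, ∀ w ∈ S, ∀ z, pi2 u = pi2 z → pi2 z = pi2 w → c2 u < c2 z → c2 z < c2 w → z ∈ S) →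
      (∀ u ∈ S, ∀ w ∈ S, ∀ z, pi3 u = pi3 z → pi3 z = pi3 w → c3 u < c3 z → c3 z < c3 w → z ∈ S) →
      (p ∈ S → q ∈ S) ∧ (q ∈ S → r ∈ S) ∧ (r ∈ S → s ∈ S) ∧ (s ∈ S → p ∈ S)) : False := by
  obtain ⟨hcard, hind, hchain⟩ := hsol
  have main : ∀ S : Finset (Cell n), Relation.ReflTransGen Move S B → p ∈ S → p ∈ B := by
    intro S h
    induction h using Relation.ReflTransGen.head_induction_on with
    | refl => exact id
    | head h1 h2 ih =>
      rename_i S S'
      intro hp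
      apply ih
      have hS := h2.head h1
      obtain ⟨x1, x2⟩ := itv hind hcard hl1 hl2 hl3 hS
      obtain ⟨a1, a2, a3, a4⟩ := step S hS (tot_chain hind hS).2 x1 x2
      obtain ⟨y1, y2⟩ := itv hind hcard hl1 hl2 hl3 h2
      obtain ⟨b1, b2, b3, b4⟩ := step S' h2 (tot_chain hind h2).2 y1 y2
      have hs : s ∈ S := a3 (a2 (a1 hp))
      obtain ⟨v, hv, hd, rfl⟩ := h1
      by_cases hvp : v = p
      · subst hvp
        exact b4 (Finset.mem_erase.mpr ⟨hsp, hs⟩)
      · exact Finset.mem_erase.mpr ⟨fun h => hvp h.symm, hp⟩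
  exact hpB (main _ hchain (mem_univ _))

end Cube

end Pool.Agent.Work.MP_e02782_co
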