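import Mathlib

/-! Counting version of Hall's theorem (M. Hall): number of systems of distinct representatives. -/

namespace Pool.Agent.Work.MP_e02782_co

open Finset

/-- systems of distinct representatives of a family of finite sets -/
abbrev SDR {ι α : Type} (A : ι → Finset α) : Type :=
  {f : ι → α // Function.Injective f ∧ ∀ i, f i ∈ A i}

theorem sdr_count_aux (N : ℕ) : ∀ (ι : Type) [Fintype ι] (α : Type) [Fintype α] [DecidableEq α]
    (m : ℕ) (A : ι → Finset α),
    Fintype.card ι = N →
    (∀ s : Finset ι, s.card ≤ (s.biUnion A).card) → (∀ i, m ≤ (A i).card) →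
    m.descFactorial (min m N) ≤ Nat.card (SDR A) := by
  induction N using Nat.strong_induction_on with
  | _ N ih =>
  intro ι _ α _ _ m A hN hall hm
  classical
  rcases Nat.eq_zero_or_pos N with h0 | hpos
  · subst h0
    have hemp : IsEmpty ι := Fintype.card_eq_zero_iff.mp hN
    have : Nonempty (SDR A) := ⟨⟨fun i => (hemp.false i).elim, fun i => (hemp.false i).elim,
      fun i => (hemp.false i).elim⟩⟩
    have h1 : 0 < Nat.card (SDR A) := Nat.card_pos
    rw [Nat.min_zero, Nat.descFactorial_zero]
    exact h1
  · by_cases H : ∀ s : Finset ι, s.Nonempty → s ≠ univ → s.card < (s.biUnion A).card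
    · -- no critical subfamily
      have hne : Nonempty ι := Fintype.card_pos_iff.mp (hN ▸ hpos)
      let x : ι := Classical.choice hne
      obtain ⟨n, rfl⟩ : ∃ n, N = n + 1 := ⟨N - 1, by omega⟩
      rcases Nat.eq_zero_or_pos m with hm0 | hmpos
      · subst hm0
        simp only [Nat.zero_min, Nat.descFactorial_zero]
        obtain ⟨f, hf1, hf2⟩ := (Finset.all_card_le_biUnion_card_iff_exists_injective A).mp hall
        have : Nonempty (SDR A) := ⟨⟨f, hf1, hf2⟩⟩
        exact Nat.card_pos
      obtain ⟨k, rfl⟩ : ∃ k, m = k + 1 := ⟨m - 1, by omega⟩
      have key : ∀ a : A x, k.descFactorial (min k n) ≤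
          Nat.card (SDR (fun x' : {x' : ι | x' ≠ x} => (A x').erase a.1)) := by
        intro a
        refine ih n (by omega) {x' : ι | x' ≠ x} α k _ ?_ (HallMarriageTheorem.hall_cond_of_erase a.1 H) ?_
        · calc Fintype.card {x' : ι | x' ≠ x} = Fintype.card ι - 1 := Set.card_ne_eq _
            _ = n := by omega
        · intro i
          have := hm i
          calc k ≤ (A i).card - 1 := by omega
            _ ≤ _ := Finset.pred_card_le_card_erase
      have hinj : ∃ Φ : (Σ a : A x, SDR (fun x' : {x' : ι | x' ≠ x} => (A x').erase a.1)) → SDR A,
          Function.Injective Φ := by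
        refine ⟨fun p => ⟨fun z => if h : z = x then p.1.1 else p.2.1 ⟨z, h⟩, ?_, ?_⟩, ?_⟩
        · have key : ∀ {w}, p.1.1 ≠ p.2.1 w := by
            intro w h
            have := p.2.2.2 w
            simp [← h] at this
          intro z₁ z₂
          by_cases h₁ : z₁ = x <;> by_cases h₂ : z₂ = x <;>
            simp [h₁, h₂, p.2.2.1.eq_iff, key, key.symm]
        · intro z
          simp only
          split_ifs with hz
          · rw [hz]; exact p.1.2
          · have := p.2.2.2 ⟨z, hz⟩
            rw [Finset.mem_erase] at this
            exact this.2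
        · rintro ⟨a, f⟩ ⟨b, g⟩ hab
          simp only [Subtype.mk.injEq] at hab
          have h1 := congrFun hab x
          simp only [dite_true] at h1
          have hab' : a = b := Subtype.ext h1
          subst hab'
          congr 1
          apply Subtype.ext
          funext z
          have := congrFun hab z.1
          have hz : z.1 ≠ x := z.2
          simpa [hz] using this
      obtain ⟨Φ, hΦ⟩ := hinj
      have h2 := Nat.card_le_card_of_injective Φ hΦ
      refine le_trans ?_ h2
      rw [Nat.card_sigma]
      have h3 : ∑ a : A x, k.descFactorial (min k n) ≤ ∑ a : A x,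
          Nat.card (SDR (fun x' : {x' : ι | x' ≠ x} => (A x').erase a.1)) :=
        Finset.sum_le_sum (fun a _ => key a)
      refine le_trans ?_ h3
      rw [Finset.sum_const, Finset.card_univ, Fintype.card_coe, smul_eq_mul]
      have h4 : min (k + 1) (n + 1) = min k n + 1 := by omega
      rw [h4, Nat.succ_descFactorial_succ]
      exact Nat.mul_le_mul_right _ (hm x)
    · push Not at H
      obtain ⟨s, hs, hns, hle⟩ := H
      have hus : s.card = (s.biUnion A).card := le_antisymm (hall s) hle
      have hcs : Fintype.card (s : Set ι) = s.card := by simp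
      have hslt : s.card < N := by
        rw [← hN]; exact (card_lt_iff_ne_univ _).mpr hns
      have hms : m ≤ s.card := by
        obtain ⟨i, hi⟩ := hs
        calc m ≤ (A i).card := hm i
          _ ≤ (s.biUnion A).card := Finset.card_le_card (Finset.subset_biUnion_of_mem A hi)
          _ = s.card := hus.symm
      have h1 := ih s.card hslt (s : Set ι) α m (fun i => A i.1) hcs
        (HallMarriageTheorem.hall_cond_of_restrict hall) (fun i => hm i.1)
      have h2 := HallMarriageTheorem.hall_cond_of_compl hus hall
      obtain ⟨g, hg1, hg2⟩ := (Finset.all_card_le_biUnion_card_iff_exists_injective _).mp h2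
      have hinj : ∃ Φ : SDR (fun i : (s : Set ι) => A i.1) → SDR A, Function.Injective Φ := by
        have hnot : ∀ (x'' : ι) (hx'' : x'' ∉ s), g ⟨x'', by simpa using hx''⟩ ∉ s.biUnion A := by
          intro x'' hx''
          have h := hg2 ⟨x'', by simpa using hx''⟩
          rw [mem_sdiff] at h
          exact h.2
        refine ⟨fun f => ⟨fun z => if h : z ∈ s then f.1 ⟨z, by simpa using h⟩
          else g ⟨z, by simpa using h⟩, ?_, ?_⟩, ?_⟩
        · have hd : ∀ (x' x'' : ι) (hx' : x' ∈ s) (hx'' : x'' ∉ s),
              f.1 ⟨x', by simpa using hx'⟩ ≠ g ⟨x'', by simpa using hx''⟩ := by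
            intro x' x'' hx' hx'' he
            apply hnot x'' hx''
            rw [← he]
            exact Finset.mem_biUnion.mpr ⟨x', hx', f.2.2 ⟨x', by simpa using hx'⟩⟩
          intro z₁ z₂ he
          by_cases h₁ : z₁ ∈ s <;> by_cases h₂ : z₂ ∈ s
          · simp only [h₁, h₂, dite_true] at he
            have := f.2.1 he
            simpa using this
          · simp only [h₁, h₂, dite_true, dite_false] at he
            exact absurd he (hd z₁ z₂ h₁ h₂)
          · simp only [h₁, h₂, dite_true, dite_false] at he
            exact absurd he.symm (hd z₂ z₁ h₂ h₁)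
          · simp only [h₁, h₂, dite_false] at he
            have := hg1 he
            simpa using this
        · intro z
          by_cases hz : z ∈ s
          · simp only [hz, dite_true]
            exact f.2.2 ⟨z, by simpa using hz⟩
          · simp only [hz, dite_false]
            have := hg2 ⟨z, by simpa using hz⟩
            rw [mem_sdiff] at this
            exact this.1
        · intro f f' he
          simp only [Subtype.mk.injEq] at he
          apply Subtype.ext
          funext z
          have := congrFun he z.1
          have hz : z.1 ∈ s := z.2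
          simpa [hz] using this
      obtain ⟨Φ, hΦ⟩ := hinj
      have h3 := Nat.card_le_card_of_injective Φ hΦ
      refine le_trans ?_ h3
      rw [min_eq_left hms] at h1
      rw [min_eq_left (by omega)]
      exact h1

end Pool.Agent.Work.MP_e02782_co
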